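import Pool.Agent.helper15.XE.SpecL
import Pool.Agent.helper46.GD.BV2
import Pool.Agent.helper9.Tors.Divs

set_option autoImplicit false

namespace Pool.Agent.XE

open Finset ArithmeticFunction
open Pool.Agent.EC (tri TL wt mt Adm edg mnf tI tII tyI cvl KK yN UN)
open Pool.Agent.CH (rgh Mo ClP ClB)
open GD (kp ks)

private theorem BV2_tot (n : ℕ) : (n : ℝ) ≤ 2 ^ n.primeFactors.card * n.totient := by
  have h1 := Nat.totient_mul_prod_primeFactors n
  have h2 : ∏ p ∈ n.primeFactors, p ≤ 2 ^ n.primeFactors.card * ∏ p ∈ n.primeFactors, (p - 1) := by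
    rw [← Finset.prod_const, ← Finset.prod_mul_distrib]
    refine Finset.prod_le_prod' fun p hp => ?_
    have := (Nat.prime_of_mem_primeFactors hp).two_le
    omega
  have h3 : 0 < ∏ p ∈ n.primeFactors, (p - 1) := by
    refine Finset.prod_pos fun p hp => ?_
    have := (Nat.prime_of_mem_primeFactors hp).two_le
    omega
  have h4 : n * ∏ p ∈ n.primeFactors, (p - 1) ≤ (2 ^ n.primeFactors.card * n.totient) * ∏ p ∈ n.primeFactors, (p - 1) := by
    rw [← h1]
    calc n.totient * ∏ p ∈ n.primeFactors, p ≤ n.totient * (2 ^ n.primeFactors.card * ∏ p ∈ n.primeFactors, (p - 1)) :=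
          Nat.mul_le_mul_left _ h2
      _ = (2 ^ n.primeFactors.card * n.totient) * ∏ p ∈ n.primeFactors, (p - 1) := by ring
  have h5 := Nat.le_of_mul_le_mul_right h4 h3
  exact_mod_cast h5

private theorem BV2_two (n : ℕ) (hn : n ≠ 0) : 2 ^ n.primeFactors.card ≤ n.divisors.card := by
  rw [Nat.card_divisors hn, ← Finset.prod_const]
  refine Finset.prod_le_prod' fun p hp => ?_
  have h1 : 1 ≤ n.factorization p := by
    rw [Nat.mem_primeFactors] at hp
    exact (hp.1.dvd_iff_one_le_factorization hn).mp hp.2.1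
  omega

open Classical in
private theorem BV2_cardf (M f : ℕ) (hM : 0 < M) (hf : 0 < f) (hfM : f ∣ M) (S : Finset (DirichletCharacter ℂ M))
    (hS : ∀ χ ∈ S, χ.conductor = f) : (#S : ℝ) ≤ f := by
  have : NeZero M := ⟨hM.ne'⟩
  have : NeZero f := ⟨hf.ne'⟩
  have hsub : S ⊆ (univ : Finset (DirichletCharacter ℂ f)).image fun χ₀ => DirichletCharacter.changeLevel hfM χ₀ := by
    intro χ hχ
    have h1 : χ.FactorsThrough f := by
      have := χ.factorsThrough_conductor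
      rwa [hS χ hχ] at this
    obtain ⟨h', χ₀, hχ₀⟩ := h1
    exact mem_image.mpr ⟨χ₀, mem_univ _, hχ₀.symm⟩
  have h2 := (card_le_card hsub).trans card_image_le
  have h3 : (#(univ : Finset (DirichletCharacter ℂ f)) : ℝ) ≤ (Nat.totient f : ℝ) := GD.BV2_card f hf _
  have h4 : (Nat.totient f : ℝ) ≤ f := by exact_mod_cast Nat.totient_le f
  have h5 : (#S : ℝ) ≤ (#(univ : Finset (DirichletCharacter ℂ f)) : ℝ) := by exact_mod_cast h2
  linarith

open Classical in
private theorem BV2_one (R M : ℕ) (hM : 0 < M) (hR : 1 ≤ R) (c k Y : ℕ) :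
    |∑ g ∈ Ioc 0 Y, kp R M c (k * g)| ≤
      (M.divisors.card : ℝ) / (Nat.totient M : ℝ) * ∑ f ∈ (Ioc R (2 * R)).filter (fun f => f ∣ M), (f : ℝ) ^ 2 := by
  have hφ : (0 : ℝ) < Nat.totient M := by exact_mod_cast Nat.totient_pos.mpr hM
  unfold kp
  rw [← mul_sum, ← Complex.re_sum, sum_comm, abs_mul, abs_of_pos (by positivity)]
  set S : Finset (DirichletCharacter ℂ M) := univ.filter fun χ => R < χ.conductor ∧ χ.conductor ≤ 2 * R with hS
  have hone : ∀ χ ∈ S, ‖∑ j ∈ Ioc 0 Y, (starRingEnd ℂ) (χ (c : ZMod M)) * χ ((k * j : ℕ) : ZMod M)‖ ≤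
      (M.divisors.card : ℝ) * χ.conductor := by
    intro χ hχ
    rw [hS, mem_filter] at hχ
    obtain ⟨-, h1, h2⟩ := hχ
    have e : ∑ j ∈ Ioc 0 Y, (starRingEnd ℂ) (χ (c : ZMod M)) * χ ((k * j : ℕ) : ZMod M) =
        (starRingEnd ℂ) (χ (c : ZMod M)) * χ (k : ZMod M) * ∑ j ∈ Ioc 0 Y, χ (j : ZMod M) := by
      rw [mul_sum]
      refine sum_congr rfl fun j _ => ?_
      rw [Nat.cast_mul, map_mul, mul_assoc]
    rw [e, norm_mul, norm_mul, RCLike.norm_conj]
    have h3 := GD.BV2_char_sum hM χ (by omega) Y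
    have h4 : ‖χ (c : ZMod M)‖ * ‖χ (k : ZMod M)‖ ≤ 1 :=
      mul_le_one₀ (DirichletCharacter.norm_le_one χ _) (norm_nonneg _)
        (DirichletCharacter.norm_le_one χ _)
    calc _ ≤ 1 * ‖∑ j ∈ Ioc 0 Y, χ (j : ZMod M)‖ :=
          mul_le_mul_of_nonneg_right h4 (norm_nonneg _)
      _ ≤ (M.divisors.card : ℝ) * χ.conductor := by rw [one_mul]; exact h3
  have hsum : ∑ χ ∈ S, (χ.conductor : ℝ) ≤ ∑ f ∈ (Ioc R (2 * R)).filter (fun f => f ∣ M), (f : ℝ) ^ 2 := by
    rw [← sum_fiberwise_of_maps_to (s := S) (t := (Ioc R (2 * R)).filter (fun f => f ∣ M))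
      (g := fun χ => χ.conductor)]
    · refine sum_le_sum fun f hf => ?_
      obtain ⟨hf1, hf2⟩ := mem_filter.mp hf
      have hf0 : 0 < f := by
        have := (mem_Ioc.mp hf1).1
        omega
      have h1 : ∑ χ ∈ S.filter (fun χ => χ.conductor = f), (χ.conductor : ℝ) =
          (#(S.filter fun χ => χ.conductor = f) : ℝ) * f := by
        rw [sum_congr rfl fun χ hχ => by rw [(mem_filter.mp hχ).2], sum_const, nsmul_eq_mul]
      rw [h1, sq]
      exact mul_le_mul_of_nonneg_right (BV2_cardf M f hM hf0 hf2 _ fun χ hχ => (mem_filter.mp hχ).2)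
        (Nat.cast_nonneg f)
    · intro χ hχ
      rw [hS, mem_filter] at hχ
      exact mem_filter.mpr ⟨mem_Ioc.mpr hχ.2, χ.conductor_dvd_level⟩
  calc 1 / (Nat.totient M : ℝ) * |(∑ χ ∈ S, ∑ j ∈ Ioc 0 Y, (starRingEnd ℂ) (χ (c : ZMod M)) * χ ((k * j : ℕ) : ZMod M)).re|
      ≤ 1 / (Nat.totient M : ℝ) * ∑ χ ∈ S, (M.divisors.card : ℝ) * χ.conductor := by
        refine mul_le_mul_of_nonneg_left ?_ (by positivity)
        refine (Complex.abs_re_le_norm _).trans ((norm_sum_le _ _).trans (sum_le_sum hone))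
    _ = (M.divisors.card : ℝ) / (Nat.totient M : ℝ) * ∑ χ ∈ S, (χ.conductor : ℝ) := by
        rw [← mul_sum]
        ring
    _ ≤ _ := mul_le_mul_of_nonneg_left hsum (by positivity)

open Classical in
private theorem BV2_inv (Q : ℝ) (hQ : 1 ≤ Q) (f : ℕ) (hf : 0 < f) :
    ∑ m ∈ (Mo Q).filter (fun m => f ∣ 30 * m), (1 : ℝ) / ((30 * m : ℕ) : ℝ) ≤ 1 / f * (1 + Real.log (30 * Q)) := by
  have hfr : (0 : ℝ) < f := by exact_mod_cast hf
  have hQ0 : 0 ≤ Q := by linarith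
  set X : ℕ := 30 * ⌊Q⌋₊ with hX
  have hX1 : (X : ℝ) ≤ 30 * Q := by
    rw [hX]
    push_cast
    have := Nat.floor_le hQ0
    linarith
  have h1 : ∑ m ∈ (Mo Q).filter (fun m => f ∣ 30 * m), (1 : ℝ) / ((30 * m : ℕ) : ℝ) =
      ∑ M ∈ ((Mo Q).filter (fun m => f ∣ 30 * m)).image (fun m : ℕ => (30 * m : ℕ)), (1 : ℝ) / ((M : ℕ) : ℝ) := by
    rw [sum_image]
    intro a _ b _ h
    have h' : 30 * a = 30 * b := h
    omega
  have h2 : ((Mo Q).filter (fun m => f ∣ 30 * m)).image (fun m => 30 * m) ⊆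
      (Ioc 0 (X / f)).image (fun t => f * t) := by
    intro M hM
    obtain ⟨m, hm, rfl⟩ := mem_image.mp hM
    obtain ⟨hm1, t, ht⟩ := mem_filter.mp hm
    unfold Mo at hm1
    obtain ⟨hm2, -⟩ := mem_filter.mp hm1
    obtain ⟨hm3, hm4⟩ := mem_Icc.mp hm2
    refine mem_image.mpr ⟨t, mem_Ioc.mpr ⟨?_, ?_⟩, ht.symm⟩
    · rcases Nat.eq_zero_or_pos t with h | h
      · rw [h, mul_zero] at ht
        omega
      · exact h
    · rw [Nat.le_div_iff_mul_le hf, mul_comm, ← ht, hX]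
      omega
  have h3 : ∑ M ∈ (Ioc 0 (X / f)).image (fun t => f * t), (1 : ℝ) / (M : ℝ) =
      1 / f * ∑ t ∈ Ioc 0 (X / f), (1 : ℝ) / (t : ℝ) := by
    rw [sum_image (fun a _ b _ h => Nat.eq_of_mul_eq_mul_left hf h), mul_sum]
    refine sum_congr rfl fun t _ => ?_
    push_cast
    rw [one_div_mul_one_div]
  have h4 : ∑ t ∈ Ioc 0 (X / f), (1 : ℝ) / (t : ℝ) ≤ 1 + Real.log (30 * Q) := by
    have h5 := harmonic_le_one_add_log (X / f)
    have h6 : ((harmonic (X / f) : ℚ) : ℝ) = ∑ t ∈ Ioc 0 (X / f), (1 : ℝ) / (t : ℝ) := by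
      rw [harmonic_eq_sum_Icc]
      push_cast
      refine sum_congr ?_ fun t _ => by rw [one_div]
      ext t
      rw [mem_Icc, mem_Ioc]
      exact ⟨fun h => ⟨h.1, h.2⟩, fun h => ⟨h.1, h.2⟩⟩
    rw [h6] at h5
    refine h5.trans ?_
    have h7 : ((X / f : ℕ) : ℝ) ≤ 30 * Q := by
      have h8 : ((X / f : ℕ) : ℝ) ≤ X := by exact_mod_cast Nat.div_le_self X f
      linarith
    rcases Nat.eq_zero_or_pos (X / f) with h | h
    · rw [h, Nat.cast_zero, Real.log_zero]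
      have : 0 ≤ Real.log (30 * Q) := Real.log_nonneg (by linarith)
      linarith
    · have h8 : (0 : ℝ) < ((X / f : ℕ) : ℝ) := by exact_mod_cast h
      have := Real.log_le_log h8 h7
      linarith
  rw [h1]
  refine (sum_le_sum_of_subset_of_nonneg h2 fun M _ _ => by positivity).trans ?_
  rw [h3]
  exact mul_le_mul_of_nonneg_left h4 (by positivity)

theorem BV2 : BV2_stmt := by
  classical
  intro η hη
  obtain ⟨C0, hC0, hdiv⟩ := Pool.Agent.helper9.Tors.divisor_bound (η / 4) (by positivity)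
  refine ⟨2 * C0 ^ 2 * (1 + 2 / η) * (30 : ℝ) ^ η, by positivity, fun Q R hQ hR => ?_⟩
  refine ⟨fun m => ((30 * m).divisors.card : ℝ) / (Nat.totient (30 * m) : ℝ) *
    ∑ f ∈ (Ioc R (2 * R)).filter (fun f => f ∣ 30 * m), (f : ℝ) ^ 2, fun m hm => ⟨?_, fun c k Y => ?_⟩, ?_⟩
  · positivity
  · have hm0 : 0 < 30 * m := by
      unfold Mo at hm
      have := (mem_Icc.mp (mem_filter.mp hm).1).1
      omega
    exact BV2_one R (30 * m) hm0 hR c k Y
  · have hQ30 : (1 : ℝ) ≤ 30 * Q := by linarith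
    have hQ30' : (0 : ℝ) < 30 * Q := by linarith
    have hL0 : 0 ≤ Real.log (30 * Q) := Real.log_nonneg hQ30
    have hterm : ∀ m ∈ Mo Q, ((30 * m).divisors.card : ℝ) / (Nat.totient (30 * m) : ℝ) *
        ∑ f ∈ (Ioc R (2 * R)).filter (fun f => f ∣ 30 * m), (f : ℝ) ^ 2 ≤
        C0 ^ 2 * (30 * Q) ^ (η / 2) * ∑ f ∈ Ioc R (2 * R), (if f ∣ 30 * m then (f : ℝ) ^ 2 * (1 / ((30 * m : ℕ) : ℝ)) else 0) := by
      intro m hm
      have hm' := hm
      unfold Mo at hm'
      have hm1 := mem_Icc.mp (mem_filter.mp hm').1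
      have hM0 : 30 * m ≠ 0 := by omega
      have hMr : (0 : ℝ) < ((30 * m : ℕ) : ℝ) := by
        have : 0 < 30 * m := by omega
        exact_mod_cast this
      have hφ : (0 : ℝ) < Nat.totient (30 * m) := by
        exact_mod_cast Nat.totient_pos.mpr (by omega)
      have hMQ : ((30 * m : ℕ) : ℝ) ≤ 30 * Q := by
        have h1 : (m : ℝ) ≤ Q := (Nat.cast_le.mpr hm1.2).trans (Nat.floor_le (by linarith))
        push_cast
        linarith
      have hτ := hdiv (30 * m) hM0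
      have h1 : ((30 * m : ℕ) : ℝ) ≤ ((30 * m).divisors.card : ℝ) * Nat.totient (30 * m) := by
        refine (BV2_tot (30 * m)).trans (mul_le_mul_of_nonneg_right ?_ hφ.le)
        exact_mod_cast BV2_two (30 * m) hM0
      have h2 : ((30 * m).divisors.card : ℝ) / (Nat.totient (30 * m) : ℝ) ≤
          C0 ^ 2 * (30 * Q) ^ (η / 2) * (1 / ((30 * m : ℕ) : ℝ)) := by
        rw [div_le_iff₀ hφ, mul_one_div, div_mul_eq_mul_div, le_div_iff₀ hMr]
        have h3 : ((30 * m).divisors.card : ℝ) ^ 2 ≤ C0 ^ 2 * (30 * Q) ^ (η / 2) := by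
          calc ((30 * m).divisors.card : ℝ) ^ 2 ≤ (C0 * ((30 * m : ℕ) : ℝ) ^ (η / 4)) ^ 2 :=
                pow_le_pow_left₀ (Nat.cast_nonneg _) hτ 2
            _ = C0 ^ 2 * ((30 * m : ℕ) : ℝ) ^ (η / 2) := by
                rw [mul_pow, ← Real.rpow_mul_natCast hMr.le]
                congr 2
                push_cast
                ring
            _ ≤ C0 ^ 2 * (30 * Q) ^ (η / 2) :=
                mul_le_mul_of_nonneg_left (Real.rpow_le_rpow hMr.le hMQ (by positivity)) (by positivity)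
        calc ((30 * m).divisors.card : ℝ) * ((30 * m : ℕ) : ℝ)
            ≤ ((30 * m).divisors.card : ℝ) * (((30 * m).divisors.card : ℝ) * Nat.totient (30 * m)) :=
              mul_le_mul_of_nonneg_left h1 (Nat.cast_nonneg _)
          _ = ((30 * m).divisors.card : ℝ) ^ 2 * Nat.totient (30 * m) := by ring
          _ ≤ C0 ^ 2 * (30 * Q) ^ (η / 2) * Nat.totient (30 * m) := mul_le_mul_of_nonneg_right h3 hφ.le
      calc ((30 * m).divisors.card : ℝ) / (Nat.totient (30 * m) : ℝ) *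
            ∑ f ∈ (Ioc R (2 * R)).filter (fun f => f ∣ 30 * m), (f : ℝ) ^ 2
          ≤ C0 ^ 2 * (30 * Q) ^ (η / 2) * (1 / ((30 * m : ℕ) : ℝ)) *
            ∑ f ∈ (Ioc R (2 * R)).filter (fun f => f ∣ 30 * m), (f : ℝ) ^ 2 :=
            mul_le_mul_of_nonneg_right h2 (by positivity)
        _ = C0 ^ 2 * (30 * Q) ^ (η / 2) * ∑ f ∈ (Ioc R (2 * R)).filter (fun f => f ∣ 30 * m),
              (f : ℝ) ^ 2 * (1 / ((30 * m : ℕ) : ℝ)) := by
            rw [← sum_mul]
            ring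
        _ = _ := by rw [sum_filter]
    refine (sum_le_sum hterm).trans ?_
    rw [← mul_sum, sum_comm]
    have hinner : ∀ f ∈ Ioc R (2 * R), ∑ m ∈ Mo Q, (if f ∣ 30 * m then (f : ℝ) ^ 2 * (1 / ((30 * m : ℕ) : ℝ)) else 0) ≤
        2 * R * (1 + Real.log (30 * Q)) := by
      intro f hf
      obtain ⟨hf1, hf2⟩ := mem_Ioc.mp hf
      have hf0 : 0 < f := by omega
      have hfr : (0 : ℝ) < f := by exact_mod_cast hf0
      have hf2r : (f : ℝ) ≤ 2 * R := by exact_mod_cast hf2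
      rw [← sum_filter, ← mul_sum]
      calc (f : ℝ) ^ 2 * ∑ m ∈ (Mo Q).filter (fun m => f ∣ 30 * m), (1 : ℝ) / ((30 * m : ℕ) : ℝ)
          ≤ (f : ℝ) ^ 2 * (1 / f * (1 + Real.log (30 * Q))) :=
            mul_le_mul_of_nonneg_left (BV2_inv Q hQ f hf0) (by positivity)
        _ = f * (1 + Real.log (30 * Q)) := by field_simp
        _ ≤ 2 * R * (1 + Real.log (30 * Q)) := mul_le_mul_of_nonneg_right hf2r (by linarith)
    have hlog : 1 + Real.log (30 * Q) ≤ (1 + 2 / η) * (30 * Q) ^ (η / 2) := by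
      have h1 : Real.log (30 * Q) ≤ (30 * Q) ^ (η / 2) / (η / 2) := Real.log_le_rpow_div hQ30'.le (by positivity)
      have h2 : (1 : ℝ) ≤ (30 * Q) ^ (η / 2) := Real.one_le_rpow hQ30 (by positivity)
      have h3 : (30 * Q) ^ (η / 2) / (η / 2) = 2 / η * (30 * Q) ^ (η / 2) := by field_simp
      rw [add_mul, one_mul]
      linarith
    calc C0 ^ 2 * (30 * Q) ^ (η / 2) * ∑ f ∈ Ioc R (2 * R), ∑ m ∈ Mo Q,
          (if f ∣ 30 * m then (f : ℝ) ^ 2 * (1 / ((30 * m : ℕ) : ℝ)) else 0)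
        ≤ C0 ^ 2 * (30 * Q) ^ (η / 2) * ∑ f ∈ Ioc R (2 * R), 2 * R * (1 + Real.log (30 * Q)) :=
          mul_le_mul_of_nonneg_left (sum_le_sum hinner) (by positivity)
      _ = C0 ^ 2 * (30 * Q) ^ (η / 2) * (R * (2 * R * (1 + Real.log (30 * Q)))) := by
          rw [sum_const, Nat.card_Ioc, nsmul_eq_mul]
          congr 3
          have : 2 * R - R = R := by omega
          rw [this]
      _ ≤ C0 ^ 2 * (30 * Q) ^ (η / 2) * (R * (2 * R * ((1 + 2 / η) * (30 * Q) ^ (η / 2)))) := by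
          refine mul_le_mul_of_nonneg_left ?_ (by positivity)
          refine mul_le_mul_of_nonneg_left ?_ (by positivity)
          exact mul_le_mul_of_nonneg_left hlog (by positivity)
      _ = 2 * C0 ^ 2 * (1 + 2 / η) * ((30 * Q) ^ (η / 2) * (30 * Q) ^ (η / 2)) * (R : ℝ) ^ 2 := by ring
      _ = 2 * C0 ^ 2 * (1 + 2 / η) * (30 : ℝ) ^ η * Q ^ η * (R : ℝ) ^ 2 := by
          rw [← Real.rpow_add hQ30', add_halves, Real.mul_rpow (by norm_num) (by linarith)]
          ring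

end Pool.Agent.XE
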