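import Pool.Agent.helper15.XE.SpecS

set_option autoImplicit false

namespace Pool.Agent.XE

open Finset ArithmeticFunction
open Pool.Agent.EC (tri TL wt)

private theorem WVB_nonneg (N j : ℕ) (v : ℝ) : 0 ≤ wv N v j := le_max_left _ _

private theorem WVB_le_one (N j : ℕ) (v : ℝ) : wv N v j ≤ 1 := by
  unfold wv tri
  apply max_le zero_le_one
  have : 0 ≤ |Real.log j - v| / (1 / (N : ℝ)) := by positivity
  linarith

private theorem WVB_near {N j : ℕ} {v : ℝ} (hN : 1 ≤ N) (h : wv N v j ≠ 0) : |Real.log j - v| < 1 / (N : ℝ) := by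
  have hN0 : (0 : ℝ) < N := by exact_mod_cast hN
  by_contra hc
  apply h
  unfold wv tri
  apply max_eq_left
  have : 1 ≤ |Real.log j - v| / (1 / (N : ℝ)) := by
    rw [le_div_iff₀ (by positivity)]
    linarith [not_lt.mp hc]
  linarith

private theorem WVB_exp (N : ℕ) (hN : 1 ≤ N) (u : ℝ) : Real.exp (3 * Real.log N + u) = (N : ℝ) ^ 3 * Real.exp u := by
  have hN0 : (0 : ℝ) < N := by exact_mod_cast hN
  rw [Real.exp_add]
  congr 1
  have : 3 * Real.log N = Real.log ((N : ℝ) ^ 3) := by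
    rw [Real.log_pow]; norm_num
  rw [this, Real.exp_log (by positivity)]

private theorem WVB_supp {N j : ℕ} {v : ℝ} (hN : 100 ≤ N) (hv : InB N v) (h : wv N v j ≠ 0) :
    N ^ 3 < j ∧ j + 6 ≤ 3 * N ^ 3 := by
  have hN1 : 1 ≤ N := by omega
  have hNr : (100 : ℝ) ≤ N := by exact_mod_cast hN
  have hN0 : (0 : ℝ) < N := by linarith
  have h1 := abs_lt.mp (WVB_near hN1 h)
  obtain ⟨hv1, hv2⟩ := hv
  have hlog : 0 ≤ Real.log N := Real.log_nonneg (by linarith)
  have hinv : 0 < 1 / (N : ℝ) := by positivity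
  have hinv2 : 1 / (N : ℝ) ≤ 1 / 100 := one_div_le_one_div_of_le (by norm_num) hNr
  have hj : 1 ≤ j := by
    rcases Nat.eq_zero_or_pos j with h0 | h0
    · exfalso
      rw [h0, Nat.cast_zero, Real.log_zero] at h1
      linarith [h1.1]
    · exact h0
  have hj0 : (0 : ℝ) < j := by exact_mod_cast hj
  constructor
  · have h2 : Real.log ((N : ℝ) ^ 3) < Real.log j := by
      have : Real.log ((N : ℝ) ^ 3) = 3 * Real.log N := by rw [Real.log_pow]; norm_num
      rw [this]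
      linarith [h1.1]
    have h3 := (Real.log_lt_log_iff (by positivity) hj0).mp h2
    exact_mod_cast h3
  · have h2 : Real.log j ≤ 3 * Real.log N + 1 := by linarith [h1.2]
    have h3 : (j : ℝ) ≤ (N : ℝ) ^ 3 * Real.exp 1 := by
      rw [← WVB_exp N hN1 1, ← Real.log_le_iff_le_exp hj0]
      exact h2
    have h4 : Real.exp 1 ≤ 2.72 := by
      have := Real.exp_one_lt_d9
      linarith
    have h5 : (100 : ℝ) ^ 3 ≤ (N : ℝ) ^ 3 := pow_le_pow_left₀ (by norm_num) hNr 3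
    have h6 : (j : ℝ) + 6 ≤ 3 * (N : ℝ) ^ 3 := by nlinarith
    exact_mod_cast h6

private theorem WVB_lip {N j : ℕ} {v : ℝ} (hN : 1 ≤ N) (hj : N ^ 3 ≤ j) :
    |wv N v j - wv N v (j + 6)| ≤ 6 / (N : ℝ) ^ 2 := by
  have hN0 : (0 : ℝ) < N := by exact_mod_cast hN
  have hj' : (N : ℝ) ^ 3 ≤ j := by exact_mod_cast hj
  have hj0 : (0 : ℝ) < j := lt_of_lt_of_le (by positivity) hj'
  have h1 : |Real.log j - Real.log ((j + 6 : ℕ) : ℝ)| ≤ 6 / j := by
    rw [abs_sub_comm, ← Real.log_div (by positivity) (by positivity)]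
    have e1 : (((j + 6 : ℕ) : ℝ)) / j = 1 + 6 / j := by
      push_cast
      field_simp
    rw [e1]
    have h2 := Real.log_le_sub_one_of_pos (show (0 : ℝ) < 1 + 6 / j by positivity)
    have h3 : 0 ≤ Real.log (1 + 6 / (j : ℝ)) := by
      apply Real.log_nonneg
      have : 0 < 6 / (j : ℝ) := by positivity
      linarith
    rw [abs_of_nonneg h3]
    linarith
  have h4 : 6 / (j : ℝ) ≤ 6 / (N : ℝ) ^ 3 := by
    apply div_le_div_of_nonneg_left (by norm_num) (by positivity) hj'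
  unfold wv tri
  rw [max_comm 0, max_comm 0]
  refine le_trans (abs_max_sub_max_le_abs _ _ _) ?_
  have e2 : 1 - |Real.log (j : ℝ) - v| / (1 / (N : ℝ)) -
      (1 - |Real.log ((j + 6 : ℕ) : ℝ) - v| / (1 / (N : ℝ))) =
      N * (|Real.log ((j + 6 : ℕ) : ℝ) - v| - |Real.log (j : ℝ) - v|) := by
    field_simp
    ring
  rw [e2, abs_mul, abs_of_pos hN0]
  have h5 := abs_abs_sub_abs_le_abs_sub (Real.log ((j + 6 : ℕ) : ℝ) - v)
    (Real.log (j : ℝ) - v)
  have e3 : Real.log ((j + 6 : ℕ) : ℝ) - v - (Real.log (j : ℝ) - v) =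
      Real.log ((j + 6 : ℕ) : ℝ) - Real.log (j : ℝ) := by ring
  rw [e3] at h5
  rw [abs_sub_comm] at h1
  calc (N : ℝ) * |(|Real.log ((j + 6 : ℕ) : ℝ) - v| - |Real.log (j : ℝ) - v|)|
      ≤ N * (6 / (N : ℝ) ^ 3) := mul_le_mul_of_nonneg_left (by linarith) hN0.le
    _ = 6 / (N : ℝ) ^ 2 := by field_simp

private theorem WVB_lower {N : ℕ} {v : ℝ} (hN : 100 ≤ N) (hv : InB N v) : (N : ℝ) ^ 2 / 4 ≤ Xv N v := by
  have hN1 : 1 ≤ N := by omega
  have hNr : (100 : ℝ) ≤ N := by exact_mod_cast hN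
  have hN0 : (0 : ℝ) < N := by linarith
  obtain ⟨hv1, hv2⟩ := hv
  have hinv : 0 < 1 / (N : ℝ) := by positivity
  have hinv2 : 1 / (N : ℝ) ≤ 1 / 100 := one_div_le_one_div_of_le (by norm_num) hNr
  have hhalf : 1 / (2 * (N : ℝ)) = 1 / (N : ℝ) / 2 := by ring
  obtain ⟨w, rfl⟩ : ∃ w, v = 3 * Real.log N + w := ⟨v - 3 * Real.log N, by ring⟩
  set a : ℝ := Real.exp (3 * Real.log N + w - 1 / (2 * N)) with ha
  set b : ℝ := Real.exp (3 * Real.log N + w + 1 / (2 * N)) with hb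
  have ha0 : 0 < a := Real.exp_pos _
  have hb0 : 0 < b := Real.exp_pos _
  have haN : (N : ℝ) ^ 3 ≤ a := by
    have h1 : a = (N : ℝ) ^ 3 * Real.exp (w - 1 / (2 * N)) := by
      rw [ha, ← WVB_exp N hN1]
      congr 1
      ring
    rw [h1]
    have h2 : 1 ≤ Real.exp (w - 1 / (2 * N)) := Real.one_le_exp (by rw [hhalf]; linarith)
    have h3 : (0 : ℝ) ≤ (N : ℝ) ^ 3 := by positivity
    nlinarith
  have hab : a * (1 / N) ≤ b - a := by
    have h1 : b = a * Real.exp (1 / N) := by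
      rw [ha, hb, ← Real.exp_add]
      congr 1
      rw [hhalf]
      ring
    have h2 := Real.add_one_le_exp (1 / (N : ℝ))
    rw [h1]
    nlinarith
  have hlen : (N : ℝ) ^ 2 ≤ b - a := by
    have h1 : (N : ℝ) ^ 3 * (1 / N) ≤ a * (1 / N) := mul_le_mul_of_nonneg_right haN hinv.le
    have h2 : (N : ℝ) ^ 3 * (1 / N) = (N : ℝ) ^ 2 := by field_simp
    linarith
  have hb3 : b ≤ 3 * (N : ℝ) ^ 3 := by
    have h1 : b = (N : ℝ) ^ 3 * Real.exp (w + 1 / (2 * N)) := by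
      rw [hb, ← WVB_exp N hN1]
      congr 1
      ring
    rw [h1]
    have h2 : Real.exp (w + 1 / (2 * N)) ≤ Real.exp 1 := Real.exp_le_exp.mpr (by rw [hhalf]; linarith)
    have h4 : Real.exp 1 ≤ 2.72 := by
      have := Real.exp_one_lt_d9
      linarith
    have h3 : (0 : ℝ) < (N : ℝ) ^ 3 := by positivity
    nlinarith
  have hsub : Ioc ⌊a⌋₊ ⌊b⌋₊ ⊆ Z3 N := by
    intro j hj
    obtain ⟨h1, h2⟩ := mem_Ioc.mp hj
    unfold Z3
    rw [mem_Ioc]
    refine ⟨by omega, ?_⟩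
    have h3 : (j : ℝ) ≤ 3 * (N : ℝ) ^ 3 := ((Nat.le_floor_iff hb0.le).mp h2).trans hb3
    have h4 : j ≤ 3 * N ^ 3 := by exact_mod_cast h3
    omega
  have hw : ∀ j ∈ Ioc ⌊a⌋₊ ⌊b⌋₊, (1 / 2 : ℝ) ≤ wv N (3 * Real.log N + w) j := by
    intro j hj
    obtain ⟨h1, h2⟩ := mem_Ioc.mp hj
    have h3 : (j : ℝ) ≤ b := (Nat.le_floor_iff hb0.le).mp h2
    have h4 : a < j := (Nat.floor_lt ha0.le).mp h1
    have hj0 : (0 : ℝ) < j := ha0.trans h4
    have h5 : Real.log j ≤ 3 * Real.log N + w + 1 / (2 * N) := (Real.log_le_iff_le_exp hj0).mpr h3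
    have h6 : 3 * Real.log N + w - 1 / (2 * N) ≤ Real.log j := (Real.le_log_iff_exp_le hj0).mpr h4.le
    have l3 : |Real.log j - (3 * Real.log N + w)| ≤ 1 / (2 * N) := by
      rw [abs_le]
      constructor <;> linarith
    unfold wv tri
    apply le_max_of_le_right
    have l4 : |Real.log j - (3 * Real.log N + w)| / (1 / (N : ℝ)) ≤ 1 / 2 := by
      rw [div_le_iff₀ (by positivity)]
      calc |Real.log j - (3 * Real.log N + w)| ≤ 1 / (2 * N) := l3
        _ = 1 / 2 * (1 / (N : ℝ)) := by ring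
    linarith
  have hcard : (N : ℝ) ^ 2 - 1 ≤ ((⌊b⌋₊ - ⌊a⌋₊ : ℕ) : ℝ) := by
    have h1 : ⌊a⌋₊ ≤ ⌊b⌋₊ := Nat.floor_mono (by
      have : 0 ≤ (N : ℝ) ^ 2 := by positivity
      linarith)
    rw [Nat.cast_sub h1]
    have h2 := Nat.lt_floor_add_one b
    have h3 := Nat.floor_le ha0.le
    linarith
  calc (N : ℝ) ^ 2 / 4 ≤ ((N : ℝ) ^ 2 - 1) * (1 / 2) := by nlinarith
    _ ≤ ((⌊b⌋₊ - ⌊a⌋₊ : ℕ) : ℝ) * (1 / 2) := mul_le_mul_of_nonneg_right hcard (by norm_num)
    _ = ∑ j ∈ Ioc ⌊a⌋₊ ⌊b⌋₊, (1 / 2 : ℝ) := by rw [sum_const, Nat.card_Ioc, nsmul_eq_mul]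
    _ ≤ ∑ j ∈ Ioc ⌊a⌋₊ ⌊b⌋₊, wv N (3 * Real.log N + w) j := sum_le_sum hw
    _ ≤ Xv N (3 * Real.log N + w) := sum_le_sum_of_subset_of_nonneg hsub fun j _ _ => WVB_nonneg N j _

private theorem WVB_upper {N : ℕ} {v : ℝ} (hN : 100 ≤ N) (hv : InB N v) : Xv N v ≤ 6 * (N : ℝ) ^ 2 := by
  have hN1 : 1 ≤ N := by omega
  have hNr : (100 : ℝ) ≤ N := by exact_mod_cast hN
  have hN0 : (0 : ℝ) < N := by linarith
  have hv' := hv
  obtain ⟨hv1, hv2⟩ := hv
  have hinv : 0 < 1 / (N : ℝ) := by positivity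
  have hinv2 : 1 / (N : ℝ) ≤ 1 / 100 := one_div_le_one_div_of_le (by norm_num) hNr
  set a : ℝ := Real.exp (v - 1 / N) with ha
  set b : ℝ := Real.exp (v + 1 / N) with hb
  have ha0 : 0 < a := Real.exp_pos _
  have hb0 : 0 < b := Real.exp_pos _
  have hev : Real.exp v ≤ 2.72 * (N : ℝ) ^ 3 := by
    have h1 : Real.exp v ≤ Real.exp (3 * Real.log N + 1) := Real.exp_le_exp.mpr (by linarith)
    rw [WVB_exp N hN1] at h1
    have h4 : Real.exp 1 ≤ 2.72 := by
      have := Real.exp_one_lt_d9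
      linarith
    have h3 : (0 : ℝ) < (N : ℝ) ^ 3 := by positivity
    nlinarith
  have hd : Real.exp (1 / N) - Real.exp (-(1 / N)) ≤ 201 / 100 * (1 / (N : ℝ)) := by
    have h1 : |1 / (N : ℝ)| ≤ 1 := by rw [abs_of_pos hinv]; linarith
    have h2 := (abs_le.mp (Real.abs_exp_sub_one_sub_id_le h1)).2
    have h3 := Real.add_one_le_exp (-(1 / (N : ℝ)))
    nlinarith
  have hlen : b - a ≤ 5.5 * (N : ℝ) ^ 2 := by
    have h1 : b - a = Real.exp v * (Real.exp (1 / N) - Real.exp (-(1 / N))) := by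
      rw [ha, hb, mul_sub, ← Real.exp_add, ← Real.exp_add, sub_eq_add_neg v]
    rw [h1]
    calc Real.exp v * (Real.exp (1 / N) - Real.exp (-(1 / N))) ≤ Real.exp v * (201 / 100 * (1 / (N : ℝ))) :=
          mul_le_mul_of_nonneg_left hd (Real.exp_pos _).le
      _ ≤ 2.72 * (N : ℝ) ^ 3 * (201 / 100 * (1 / (N : ℝ))) := mul_le_mul_of_nonneg_right hev (by positivity)
      _ = 2.72 * (201 / 100) * (N : ℝ) ^ 2 := by field_simp
      _ ≤ 5.5 * (N : ℝ) ^ 2 := by
          have : (0 : ℝ) ≤ (N : ℝ) ^ 2 := by positivity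
          nlinarith
  have hab : a ≤ b := Real.exp_le_exp.mpr (by linarith)
  have hsub : (Z3 N).filter (fun j => wv N v j ≠ 0) ⊆ Ioc ⌊a⌋₊ ⌊b⌋₊ := by
    intro j hj
    obtain ⟨h1, h2⟩ := mem_filter.mp hj
    have h3 := abs_lt.mp (WVB_near hN1 h2)
    have hj0 : (0 : ℝ) < j := by exact_mod_cast (mem_Ioc.mp h1).1
    rw [mem_Ioc]
    constructor
    · rw [Nat.floor_lt ha0.le, ha, ← Real.lt_log_iff_exp_lt hj0]
      linarith [h3.1]
    · rw [Nat.le_floor_iff hb0.le, hb, ← Real.log_le_iff_le_exp hj0]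
      linarith [h3.2]
  have hcard : ((⌊b⌋₊ - ⌊a⌋₊ : ℕ) : ℝ) ≤ 5.5 * (N : ℝ) ^ 2 + 1 := by
    have h1 : ⌊a⌋₊ ≤ ⌊b⌋₊ := Nat.floor_mono hab
    rw [Nat.cast_sub h1]
    have h2 := Nat.lt_floor_add_one a
    have h3 := Nat.floor_le hb0.le
    linarith
  calc Xv N v = ∑ j ∈ (Z3 N).filter (fun j => wv N v j ≠ 0), wv N v j := (sum_filter_ne_zero _).symm
    _ ≤ ∑ j ∈ (Z3 N).filter (fun j => wv N v j ≠ 0), (1 : ℝ) := sum_le_sum fun j _ => WVB_le_one N j v
    _ = (#((Z3 N).filter fun j => wv N v j ≠ 0) : ℝ) := by rw [sum_const, nsmul_eq_mul, mul_one]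
    _ ≤ ((⌊b⌋₊ - ⌊a⌋₊ : ℕ) : ℝ) := by
        have := card_le_card hsub
        rw [Nat.card_Ioc] at this
        exact_mod_cast this
    _ ≤ 5.5 * (N : ℝ) ^ 2 + 1 := hcard
    _ ≤ 6 * (N : ℝ) ^ 2 := by nlinarith

theorem WVB : WVB_stmt := by
  refine ⟨100, by norm_num, fun N hN => ?_⟩
  have hN1 : 1 ≤ N := by omega
  have hNr : (100 : ℝ) ≤ N := by exact_mod_cast hN
  have hN0 : (0 : ℝ) < N := by linarith
  have hinv : 0 < 1 / (N : ℝ) := by positivity
  refine ⟨fun v hv => ⟨?_, WVB_lower hN hv, WVB_upper hN hv, fun j => ⟨WVB_nonneg N j v, WVB_le_one N j v,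
    fun h => WVB_supp hN hv h, fun h => WVB_lip hN1 h⟩⟩, fun V hV hS => ⟨?_, fun j => ⟨?_, ?_, fun h => ?_⟩⟩⟩
  · obtain ⟨hv1, hv2⟩ := hv
    rw [abs_le]
    constructor <;> linarith
  · let g : ℝ → ℕ := fun v => ⌊(v - 3 * Real.log N) * (N / 2)⌋₊
    have hmaps : Set.MapsTo g (V : Set ℝ) ((range (N + 1) : Finset ℕ) : Set ℕ) := by
      intro v hv
      obtain ⟨h1, h2⟩ := hV v hv
      have h3 : (v - 3 * Real.log N) * (N / 2) ≤ N := by nlinarith
      have h4 : g v ≤ N := by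
        show ⌊(v - 3 * Real.log N) * (N / 2)⌋₊ ≤ N
        exact Nat.floor_le_of_le h3
      exact mem_coe.mpr (mem_range.mpr (by omega))
    have hinj : ∀ v ∈ V, ∀ v' ∈ V, v < v' → g v < g v' := by
      intro v hv v' hv' hlt
      have h1 := hS v hv v' hv' hlt.ne
      rw [abs_sub_comm, abs_of_pos (by linarith)] at h1
      obtain ⟨h2, h3⟩ := hV v hv
      have h4 : 0 ≤ (v - 3 * Real.log N) * (N / 2) := mul_nonneg (by linarith) (by positivity)
      have h5 : (v - 3 * Real.log N) * (N / 2) + 1 ≤ (v' - 3 * Real.log N) * (N / 2) := by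
        have h6 : 2 / (N : ℝ) * (N / 2) ≤ (v' - v) * (N / 2) := mul_le_mul_of_nonneg_right h1 (by positivity)
        have h7 : 2 / (N : ℝ) * (N / 2) = 1 := by field_simp
        linarith
      have h8 : g v + 1 ≤ g v' := by
        show ⌊(v - 3 * Real.log N) * (N / 2)⌋₊ + 1 ≤ ⌊(v' - 3 * Real.log N) * (N / 2)⌋₊
        rw [← Nat.floor_add_one h4]
        exact Nat.floor_mono h5
      omega
    have hinj2 : Set.InjOn g (V : Set ℝ) := by
      intro v hv v' hv' h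
      rcases lt_trichotomy v v' with hlt | heq | hlt
      · exact absurd h (hinj v hv v' hv' hlt).ne
      · exact heq
      · exact absurd h.symm (hinj v' hv' v hv hlt).ne
    have h1 := card_le_card_of_injOn g hmaps hinj2
    rw [card_range] at h1
    have h2 : (#V : ℝ) ≤ N + 1 := by exact_mod_cast h1
    linarith
  · exact sum_nonneg fun v _ => WVB_nonneg N j v
  · by_cases hz : ∃ v ∈ V, wv N v j ≠ 0
    · obtain ⟨v, hv, hne⟩ := hz
      have h1 : fV N V j = wv N v j := by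
        unfold fV
        refine sum_eq_single v (fun v' hv' hvv => ?_) fun h => absurd hv h
        by_contra hne'
        have h2 := abs_lt.mp (WVB_near hN1 hne)
        have h3 := abs_lt.mp (WVB_near hN1 hne')
        have h4 := hS v hv v' hv' (Ne.symm hvv)
        have h5 : |v - v'| < 2 / (N : ℝ) := by
          have : 2 / (N : ℝ) = 1 / N + 1 / N := by ring
          rw [abs_lt, this]
          constructor <;> linarith [h2.1, h2.2, h3.1, h3.2]
        linarith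
      rw [h1]
      exact WVB_le_one N j v
    · have h1 : fV N V j = 0 := by
        unfold fV
        refine sum_eq_zero fun v hv => ?_
        by_contra h
        exact hz ⟨v, hv, h⟩
      rw [h1]
      exact zero_le_one
  · obtain ⟨v, hv, hne⟩ := exists_ne_zero_of_sum_ne_zero h
    exact WVB_supp hN (hV v hv) hne

end Pool.Agent.XE
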